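import Pool.Agent.Helper92_Sub.Defs

namespace Pool.Agent.Helper92_Sub

/-- The saturation of a subgroup of an abelian group. -/
def sat {A : Type*} [AddCommGroup A] (L : AddSubgroup A) : AddSubgroup A where
  carrier := {a | ∃ k : ℕ, 0 < k ∧ k • a ∈ L}
  zero_mem' := ⟨1, one_pos, by simp⟩
  add_mem' := by
    rintro a b ⟨k, hk, ha⟩ ⟨l, hl, hb⟩
    refine ⟨k * l, Nat.mul_pos hk hl, ?_⟩
    have h1 : (k * l) • (a + b) = l • (k • a) + k • (l • b) := by
      rw [smul_add, ← mul_smul, ← mul_smul, mul_comm l k]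
    rw [h1]
    exact L.add_mem (L.nsmul_mem ha _) (L.nsmul_mem hb _)
  neg_mem' := by
    rintro a ⟨k, hk, ha⟩
    exact ⟨k, hk, by rw [smul_neg]; exact L.neg_mem ha⟩

lemma mem_sat {A : Type*} [AddCommGroup A] {L : AddSubgroup A} {a : A} :
    a ∈ sat L ↔ ∃ k : ℕ, 0 < k ∧ k • a ∈ L := Iff.rfl

lemma le_sat {A : Type*} [AddCommGroup A] (L : AddSubgroup A) : L ≤ sat L :=
  fun a ha => ⟨1, one_pos, by simpa using ha⟩

lemma sat_mono {A : Type*} [AddCommGroup A] {L M : AddSubgroup A} (h : L ≤ M) : sat L ≤ sat M :=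
  fun _ ⟨k, hk, ha⟩ => ⟨k, hk, h ha⟩

lemma det_le_weights {κ : Type*} [Fintype κ] [DecidableEq κ] (N : Matrix κ κ ℤ) (w : κ → ℕ)
    (h : ∀ i j, |N i j| ≤ w j) : N.det.natAbs ≤ (Fintype.card κ).factorial * ∏ j, w j := by
  have h1 : |N.det| ≤ ((Fintype.card κ).factorial : ℤ) * ∏ j, (w j : ℤ) := by
    rw [Matrix.det_apply]
    calc |∑ σ : Equiv.Perm κ, Equiv.Perm.sign σ • ∏ i, N (σ i) i|
        ≤ ∑ σ : Equiv.Perm κ, |Equiv.Perm.sign σ • ∏ i, N (σ i) i| :=
          Finset.abs_sum_le_sum_abs _ _
      _ ≤ ∑ σ : Equiv.Perm κ, ∏ j, (w j : ℤ) := by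
          refine Finset.sum_le_sum fun σ _ => ?_
          have : |Equiv.Perm.sign σ • ∏ i, N (σ i) i| = |∏ i, N (σ i) i| := by
            rcases Int.units_eq_one_or (Equiv.Perm.sign σ) with h | h <;> simp [h]
          rw [this, Finset.abs_prod]
          exact Finset.prod_le_prod (fun i _ => abs_nonneg _) (fun i _ => h _ _)
      _ = ((Fintype.card κ).factorial : ℤ) * ∏ j, (w j : ℤ) := by
          rw [Finset.sum_const, Finset.card_univ, Fintype.card_perm, nsmul_eq_mul]
  have h2 : ((N.det.natAbs : ℕ) : ℤ) ≤ (((Fintype.card κ).factorial * ∏ j, w j : ℕ) : ℤ) := by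
    rw [Int.natCast_natAbs]
    push_cast
    exact h1
  exact_mod_cast h2

/-- The cast of an integer vector to a rational vector. -/
def castv {ι : Type*} (x : ι → ℤ) : ι → ℚ := fun i => (x i : ℚ)

/-- Bound for the torsion of `ℤ^ι / L` by weighted minors. -/
theorem tors_bound {ι : Type} [Fintype ι] [DecidableEq ι] (X : Finset (ι → ℤ)) (w : ι → ℕ)
    (hX : ∀ x ∈ X, ∀ i, |x i| ≤ w i) :
    ∃ I : Finset ι, I.card = Module.finrank ℚ (Submodule.span ℚ (castv '' (X : Set (ι → ℤ)))) ∧
      (AddSubgroup.closure (X : Set (ι → ℤ))).relIndex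
        (sat (AddSubgroup.closure (X : Set (ι → ℤ)))) ≠ 0 ∧
      (AddSubgroup.closure (X : Set (ι → ℤ))).relIndex
        (sat (AddSubgroup.closure (X : Set (ι → ℤ)))) ≤ I.card.factorial * ∏ i ∈ I, w i := by
  classical
  set L := AddSubgroup.closure (X : Set (ι → ℤ)) with hL
  obtain ⟨κ, a, ha, hsp, hli⟩ := exists_linearIndependent' ℚ
    (fun x : (X : Set (ι → ℤ)) => castv x.1)
  have : Finite κ := Finite.of_injective a ha
  have : Fintype κ := Fintype.ofFinite κ
  have hrange : Set.range (fun x : (X : Set (ι → ℤ)) => castv x.1) = castv '' (X : Set (ι → ℤ)) := by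
    ext y; simp [Set.mem_image]
  -- the matrix
  set M : Matrix κ ι ℚ := fun k => castv (a k).1 with hM
  have hMli : LinearIndependent ℚ M.row := hli
  have hrank : M.rank = Fintype.card κ := by
    rw [Matrix.rank_eq_finrank_span_row]
    exact (linearIndependent_iff_card_eq_finrank_span.mp hMli).symm
  have hcol : Submodule.span ℚ (Set.range M.col) = ⊤ := by
    apply Submodule.eq_top_of_finrank_eq
    rw [← Matrix.rank_eq_finrank_span_cols, hrank]
    simp
  obtain ⟨κ', a', ha', hsp', hli'⟩ := exists_linearIndependent' ℚ M.col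
  have : Finite κ' := Finite.of_injective a' ha'
  have : Fintype κ' := Fintype.ofFinite κ'
  have hcard : Fintype.card κ' = Fintype.card κ := by
    have h1 := linearIndependent_iff_card_eq_finrank_span.mp hli'
    rw [Set.finrank, hsp', hcol] at h1
    simpa using h1
  obtain ⟨e⟩ : Nonempty (κ ≃ κ') := Fintype.card_eq.mp hcard.symm
  set c : κ → ι := fun k => a' (e k) with hc
  have hcinj : Function.Injective c := ha'.comp e.injective
  set N : Matrix κ κ ℤ := fun k j => (a k).1 (c j) with hN
  have hNQ : (N.map (Int.cast : ℤ → ℚ)).det ≠ 0 := by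
    have h1 : LinearIndependent ℚ (N.map (Int.cast : ℤ → ℚ)).col := by
      have h2 := hli'.comp e e.injective
      exact h2
    have h3 : IsUnit (N.map (Int.cast : ℤ → ℚ)) := Matrix.linearIndependent_cols_iff_isUnit.mp h1
    exact ((Matrix.isUnit_iff_isUnit_det _).mp h3).ne_zero
  have hdet : N.det ≠ 0 := by
    intro h0
    apply hNQ
    have : (N.map (Int.cast : ℤ → ℚ)).det = ((N.det : ℤ) : ℚ) := by
      rw [Int.cast_det]
    rw [this, h0]; simp
  -- the projection
  let p : (ι → ℤ) →+ (κ → ℤ) :=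
    { toFun := fun x j => x (c j)
      map_zero' := rfl
      map_add' := fun _ _ => rfl }
  -- the lattice spanned by the rows
  have hNli : LinearIndependent ℤ N.row := by
    rw [Fintype.linearIndependent_iff]
    intro g hg k
    by_contra hk
    have h1 : Matrix.vecMul g N = 0 := by
      funext j
      have := congrFun hg j
      simpa [Matrix.vecMul, dotProduct, Matrix.row, Finset.sum_apply] using this
    exact hdet (Matrix.exists_vecMul_eq_zero_iff.mp ⟨g, fun h => hk (by rw [h]; rfl), h1⟩)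
  set W : Submodule ℤ (κ → ℤ) := Submodule.span ℤ (Set.range N.row) with hW
  have hWcard : Nat.card ((κ → ℤ) ⧸ W) = N.det.natAbs := by
    rw [← Submodule.natAbs_det_basis_change (Pi.basisFun ℤ κ) W (Module.Basis.span hNli)]
    congr 1
    rw [Pi.basisFun_det]
    have : (fun k => ((Module.Basis.span hNli k : W) : κ → ℤ)) = N := by
      funext k
      rw [Module.Basis.span_apply]
      rfl
    change (Matrix.detRowAlternating (fun k => ((Module.Basis.span hNli k : W) : κ → ℤ))) = N.det
    rw [this]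
    rfl
  -- injectivity of p on the saturation
  have hspan : ∀ x ∈ sat L, castv x ∈ Submodule.span ℚ (Set.range M.row) := by
    intro x hx
    obtain ⟨k, hk, hkx⟩ := hx
    have h1 : ∀ y ∈ L, castv y ∈ Submodule.span ℚ (Set.range M.row) := by
      intro y hy
      have hsp2 : Submodule.span ℚ (Set.range M.row) =
          Submodule.span ℚ (castv '' (X : Set (ι → ℤ))) := by
        rw [← hrange, ← hsp]; rfl
      rw [hsp2]
      refine AddSubgroup.closure_induction (p := fun y _ => castv y ∈ Submodule.span ℚ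
        (castv '' (X : Set (ι → ℤ)))) ?_ ?_ ?_ ?_ hy
      · intro y hy; exact Submodule.subset_span ⟨y, hy, rfl⟩
      · have : castv (0 : ι → ℤ) = 0 := by funext i; simp [castv]
        rw [this]; exact Submodule.zero_mem _
      · intro y z _ _ h1 h2
        have : castv (y + z) = castv y + castv z := by funext i; simp [castv]
        rw [this]; exact Submodule.add_mem _ h1 h2
      · intro y _ h1
        have : castv (-y) = - castv y := by funext i; simp [castv]
        rw [this]; exact Submodule.neg_mem _ h1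
    have h2 := h1 _ hkx
    have h3 : castv (k • x) = (k : ℚ) • castv x := by funext i; simp [castv]
    rw [h3] at h2
    have h4 : castv x = ((k : ℚ)⁻¹) • ((k : ℚ) • castv x) := by
      rw [smul_smul, inv_mul_cancel₀ (by exact_mod_cast hk.ne'), one_smul]
    rw [h4]
    exact Submodule.smul_mem _ _ h2
  have hinj : ∀ x ∈ sat L, p x = 0 → x = 0 := by
    intro x hx hpx
    obtain ⟨g, hg⟩ := (Submodule.mem_span_range_iff_exists_fun ℚ).mp (hspan x hx)
    have h1 : Matrix.vecMul g (N.map (Int.cast : ℤ → ℚ)) = 0 := by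
      funext j
      have h2 := congrFun hg (c j)
      have h3 : castv x (c j) = 0 := by
        have := congrFun hpx j
        simp only [castv]
        exact_mod_cast this
      rw [h3] at h2
      simpa [Matrix.vecMul, dotProduct, Matrix.row, Finset.sum_apply, hM, castv] using h2
    have hg0 : g = 0 := by
      by_contra hne
      exact hNQ (Matrix.exists_vecMul_eq_zero_iff.mp ⟨g, hne, h1⟩)
    have h4 : castv x = 0 := by rw [← hg, hg0]; simp
    funext i
    have := congrFun h4 i
    simpa [castv] using this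
  -- the sublattice
  set L₀ : AddSubgroup (ι → ℤ) := AddSubgroup.closure (Set.range fun k => (a k).1) with hL₀
  have hL₀L : L₀ ≤ L := by
    rw [hL₀, AddSubgroup.closure_le]
    rintro _ ⟨k, rfl⟩
    exact AddSubgroup.subset_closure (a k).2
  have hpL₀ : L₀.map p = W.toAddSubgroup := by
    rw [hL₀, AddMonoidHom.map_closure, hW, Submodule.span_int_eq_addSubgroupClosure]
    congr 1
    ext y; constructor
    · rintro ⟨_, ⟨k, rfl⟩, rfl⟩; exact ⟨k, rfl⟩
    · rintro ⟨k, rfl⟩; exact ⟨_, ⟨k, rfl⟩, rfl⟩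
  have hcap : (W.toAddSubgroup.comap p) ⊓ sat L ≤ L₀ := by
    rintro x ⟨hx1, hx2⟩
    have h1 : p x ∈ L₀.map p := by rw [hpL₀]; exact hx1
    obtain ⟨y, hy, hyx⟩ := h1
    have h2 : x - y ∈ sat L := (sat L).sub_mem hx2 (le_sat L (hL₀L hy))
    have h3 : x - y = 0 := hinj _ h2 (by rw [map_sub, hyx, sub_self])
    rw [sub_eq_zero.mp h3]; exact hy
  have hWidx : W.toAddSubgroup.index = N.det.natAbs := hWcard
  have hWne : W.toAddSubgroup.index ≠ 0 := by
    rw [hWidx]; exact Int.natAbs_ne_zero.mpr hdet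
  have hcomap : (W.toAddSubgroup.comap p).index ∣ W.toAddSubgroup.index := by
    rw [AddSubgroup.index_comap]
    exact AddSubgroup.relIndex_dvd_index_of_normal _ _
  have hcomap0 : (W.toAddSubgroup.comap p).index ≠ 0 := by
    intro h0; rw [h0] at hcomap; exact hWne (Nat.eq_zero_of_zero_dvd hcomap)
  have hrel1 : (W.toAddSubgroup.comap p).relIndex (sat L) ∣ (W.toAddSubgroup.comap p).index :=
    AddSubgroup.relIndex_dvd_index_of_normal _ _
  have hrel2 : L.relIndex (sat L) ∣ (W.toAddSubgroup.comap p).relIndex (sat L) := by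
    rw [← AddSubgroup.inf_relIndex_right (W.toAddSubgroup.comap p) (sat L)]
    exact AddSubgroup.relIndex_dvd_of_le_left _ (hcap.trans hL₀L)
  have hfin : L.relIndex (sat L) ∣ N.det.natAbs := by
    rw [← hWidx]; exact hrel2.trans (hrel1.trans hcomap)
  refine ⟨Finset.univ.map ⟨c, hcinj⟩, ?_, ?_, ?_⟩
  · rw [Finset.card_map, Finset.card_univ]
    have := linearIndependent_iff_card_eq_finrank_span.mp hli
    rw [this, Set.finrank, hsp, hrange]
  · intro h0
    rw [h0] at hfin
    exact hdet (Int.natAbs_eq_zero.mp (Nat.eq_zero_of_zero_dvd hfin))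
  · refine (Nat.le_of_dvd (Int.natAbs_pos.mpr hdet) hfin).trans ?_
    have := det_le_weights N (fun j => w (c j)) (fun i j => hX _ (a i).2 _)
    rw [Finset.card_map, Finset.card_univ, Finset.prod_map]
    exact this

end Pool.Agent.Helper92_Sub
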