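import Pool.Agent.Helper92_Sub.Tors

namespace Pool.Agent.Helper92_Sub

/-- In a finitely generated abelian group, `sat P / P` has a complement in `A / P`. -/
theorem exists_compl {A : Type} [AddCommGroup A] [Module.Finite ℤ A] (P : AddSubgroup A) :
    ∃ F : AddSubgroup A, P ≤ F ∧ F ⊓ sat P ≤ P ∧ F.index = P.relIndex (sat P) := by
  classical
  let PS : Submodule ℤ A := P.toIntSubmodule
  let G := A ⧸ PS
  let T : Submodule ℤ G := Submodule.torsion ℤ G
  have hfree : Module.Free ℤ (G ⧸ T) := inferInstance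
  have hproj : Module.Projective ℤ (G ⧸ T) := inferInstance
  obtain ⟨s, hs⟩ := Module.projective_lifting_property T.mkQ LinearMap.id T.mkQ_surjective
  let Fb : Submodule ℤ G := LinearMap.range s
  let FS : Submodule ℤ A := Fb.comap PS.mkQ
  have hker : ∀ x : A, PS.mkQ x = 0 ↔ x ∈ P := fun x => by
    rw [← LinearMap.mem_ker, Submodule.ker_mkQ]; exact Iff.rfl
  have hT : ∀ x : A, PS.mkQ x ∈ T ↔ x ∈ sat P := by
    intro x
    rw [Submodule.mem_torsion_iff]
    constructor
    · rintro ⟨⟨k, hk⟩, hkx⟩
      have hk0 : k ≠ 0 := nonZeroDivisors.ne_zero hk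
      have h1 : k • PS.mkQ x = 0 := hkx
      rw [← map_smul] at h1
      have h2 : k • x ∈ P := (hker _).mp h1
      refine ⟨k.natAbs, Int.natAbs_pos.mpr hk0, ?_⟩
      rcases Int.natAbs_eq k with h | h
      · rw [h] at h2
        rw [← natCast_zsmul]; exact h2
      · rw [h] at h2
        rw [← natCast_zsmul]
        have := P.neg_mem h2
        rwa [neg_smul, neg_neg] at this
    · rintro ⟨k, hk, hkx⟩
      refine ⟨⟨(k : ℤ), mem_nonZeroDivisors_of_ne_zero (by exact_mod_cast hk.ne')⟩, ?_⟩
      change (k : ℤ) • PS.mkQ x = 0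
      rw [← map_smul]
      refine (hker _).mpr ?_
      rw [natCast_zsmul]; exact hkx
  refine ⟨FS.toAddSubgroup, ?_, ?_, ?_⟩
  · intro x hx
    change PS.mkQ x ∈ Fb
    rw [(hker x).mpr hx]
    exact Fb.zero_mem
  · rintro x ⟨hx1, hx2⟩
    have h1 : PS.mkQ x ∈ Fb := hx1
    have h2 : PS.mkQ x ∈ T := (hT x).mpr hx2
    obtain ⟨y, hy⟩ := h1
    have h3 : T.mkQ (PS.mkQ x) = 0 := by
      rw [← LinearMap.mem_ker, Submodule.ker_mkQ]; exact h2
    have h4 : T.mkQ (s y) = y := by
      have := LinearMap.congr_fun hs y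
      simpa using this
    rw [hy, h3] at h4
    rw [← h4, map_zero] at hy
    exact (hker x).mp hy.symm
  · have hsup : FS.toAddSubgroup ⊔ sat P = ⊤ := by
      rw [eq_top_iff]
      intro x _
      set y := PS.mkQ x - s (T.mkQ (PS.mkQ x)) with hy
      have hyT : y ∈ T := by
        rw [← Submodule.ker_mkQ T, LinearMap.mem_ker, hy, map_sub]
        have := LinearMap.congr_fun hs (T.mkQ (PS.mkQ x))
        simp only [LinearMap.comp_apply, LinearMap.id_apply] at this
        rw [this, sub_self]
      obtain ⟨u, hu⟩ := PS.mkQ_surjective y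
      have hu2 : u ∈ sat P := (hT u).mp (by rw [hu]; exact hyT)
      have hxu : x - u ∈ FS.toAddSubgroup := by
        change PS.mkQ (x - u) ∈ Fb
        rw [map_sub, hu, hy]
        exact ⟨T.mkQ (PS.mkQ x), by abel⟩
      have : x = (x - u) + u := by abel
      rw [this]
      exact AddSubgroup.add_mem_sup hxu hu2
    have hinf : FS.toAddSubgroup ⊓ sat P = P := by
      apply le_antisymm
      · rintro x ⟨hx1, hx2⟩
        have h1 : PS.mkQ x ∈ Fb := hx1
        have h2 : PS.mkQ x ∈ T := (hT x).mpr hx2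
        obtain ⟨y, hy⟩ := h1
        have h3 : T.mkQ (PS.mkQ x) = 0 := by
          rw [← LinearMap.mem_ker, Submodule.ker_mkQ]; exact h2
        have h4 : T.mkQ (s y) = y := by
          have := LinearMap.congr_fun hs y
          simpa using this
        rw [hy, h3] at h4
        rw [← h4, map_zero] at hy
        exact (hker x).mp hy.symm
      · refine le_inf ?_ (le_sat P)
        intro x hx
        change PS.mkQ x ∈ Fb
        rw [(hker x).mpr hx]
        exact Fb.zero_mem
    rw [← AddSubgroup.relIndex_top_right, ← hsup, AddSubgroup.relIndex_sup_left,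
      ← AddSubgroup.inf_relIndex_right, hinf]

end Pool.Agent.Helper92_Sub
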