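import Mathlib

/-!
The subgroup separability function of a group, and the groups `HG m s d`.
-/

namespace Pool.Agent.Helper92_Sub

section general

variable {G : Type} [Group G]

/-- The word length of `g` with respect to `S`: the least length of a list of elements of `S` and
inverses of elements of `S` whose product is `g`. -/
noncomputable def wordNorm (S : Set G) (g : G) : ℕ :=
  sInf {k : ℕ | ∃ l : List G, l.length = k ∧ (∀ x ∈ l, x ∈ S ∨ x⁻¹ ∈ S) ∧ l.prod = g}

/-- `‖H‖_S` of a finitely generated subgroup: the least `k` such that `H` has a finite generating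
set all of whose elements have word length at most `k`. -/
noncomputable def subNorm (S : Set G) (H : Subgroup G) : ℕ :=
  sInf {k : ℕ | ∃ X : Finset G, Subgroup.closure (X : Set G) = H ∧ ∀ x ∈ X, wordNorm S x ≤ k}

/-- The relative depth `D_G(H,g)`: the least order of a finite group `Q` with a homomorphism
`π : G → Q` such that `π(g)` is not in `π(H)` (it is `⊤` if there is none). -/
noncomputable def relDepth (H : Subgroup G) (g : G) : ℕ∞ :=
  sInf {k : ℕ∞ | ∃ (Q : Type) (_ : Group Q) (_ : Finite Q) (π : G →* Q),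
    π g ∉ H.map π ∧ k = (Nat.card Q : ℕ∞)}

/-- The subgroup separability function `Sub_{G,S}(n)`: the supremum of `D_G(H,g)` over all finitely
generated subgroups `H` and all `g` not in `H` with `‖H‖_S ≤ n` and `‖g‖_S ≤ n`. -/
noncomputable def Sub (S : Set G) (n : ℕ) : ℕ∞ :=
  sSup {k : ℕ∞ | ∃ (H : Subgroup G) (g : G), g ∉ H ∧ H.FG ∧ subNorm S H ≤ n ∧ wordNorm S g ≤ n ∧
    k = relDepth H g}

end general

/-- `f ⪯ g`: there is `C` with `f n ≤ C * g (C * n)` for all `n`. -/
def Dom (f g : ℕ → ℕ∞) : Prop := ∃ C : ℕ, ∀ n : ℕ, f n ≤ (C : ℕ∞) * g (C * n)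

/-- `f ≈ g`. -/
def Equ (f g : ℕ → ℕ∞) : Prop := Dom f g ∧ Dom g f

/-- Index set of the coordinates. -/
abbrev Ix (m s : ℕ) : Type := Fin m ⊕ Fin m ⊕ Fin s

/-- Underlying set of the group `HG m s d`: vectors with `2 m + s` integer coordinates, and one
central integer coordinate. -/
@[ext] structure HG (m s : ℕ) (d : Fin m → ℕ) where
  v : Ix m s → ℤ
  z : ℤ

namespace HG

variable {m s : ℕ} {d : Fin m → ℕ}

/-- The bilinear form of the group law. -/
def b (d : Fin m → ℕ) (v w : Ix m s → ℤ) : ℤ :=
  ∑ i : Fin m, (d i : ℤ) * v (Sum.inl i) * w (Sum.inr (Sum.inl i))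

lemma b_add_left (v v' w : Ix m s → ℤ) : b d (v + v') w = b d v w + b d v' w := by
  simp only [b, Pi.add_apply, ← Finset.sum_add_distrib]
  refine Finset.sum_congr rfl fun i _ => by ring

lemma b_add_right (v w w' : Ix m s → ℤ) : b d v (w + w') = b d v w + b d v w' := by
  simp only [b, Pi.add_apply, ← Finset.sum_add_distrib]
  refine Finset.sum_congr rfl fun i _ => by ring

lemma b_neg_left (v w : Ix m s → ℤ) : b d (-v) w = - b d v w := by
  simp only [b, Pi.neg_apply, ← Finset.sum_neg_distrib]
  refine Finset.sum_congr rfl fun i _ => by ring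

lemma b_neg_right (v w : Ix m s → ℤ) : b d v (-w) = - b d v w := by
  simp only [b, Pi.neg_apply, ← Finset.sum_neg_distrib]
  refine Finset.sum_congr rfl fun i _ => by ring

@[simp] lemma b_zero_left (w : Ix m s → ℤ) : b d 0 w = 0 := by
  simp [b]

@[simp] lemma b_zero_right (v : Ix m s → ℤ) : b d v 0 = 0 := by
  simp [b]

/-- The group law `(v, z) (w, u) = (v + w, z + u + b(v, w))`. -/
instance : Mul (HG m s d) := ⟨fun g h => ⟨g.v + h.v, g.z + h.z + b d g.v h.v⟩⟩
instance : One (HG m s d) := ⟨⟨0, 0⟩⟩
instance : Inv (HG m s d) := ⟨fun g => ⟨-g.v, -g.z + b d g.v g.v⟩⟩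

@[simp] lemma mul_v (g h : HG m s d) : (g * h).v = g.v + h.v := rfl
@[simp] lemma mul_z (g h : HG m s d) : (g * h).z = g.z + h.z + b d g.v h.v := rfl
@[simp] lemma one_v : (1 : HG m s d).v = 0 := rfl
@[simp] lemma one_z : (1 : HG m s d).z = 0 := rfl
@[simp] lemma inv_v (g : HG m s d) : (g⁻¹).v = -g.v := rfl
@[simp] lemma inv_z (g : HG m s d) : (g⁻¹).z = -g.z + b d g.v g.v := rfl

instance : Group (HG m s d) :=
  Group.ofLeftAxioms
    (fun g h k => by
      apply HG.ext
      · simp only [mul_v]; exact add_assoc _ _ _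
      · simp only [mul_z, mul_v, b_add_left, b_add_right]; ring)
    (fun g => by
      apply HG.ext
      · simp only [mul_v, one_v]; exact zero_add _
      · simp only [mul_z, one_z, one_v, b_zero_left]; ring)
    (fun g => by
      apply HG.ext
      · simp only [mul_v, inv_v, one_v]; exact neg_add_cancel _
      · simp only [mul_z, inv_z, inv_v, one_z, b_neg_left]; ring)

end HG

end Pool.Agent.Helper92_Sub
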