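import Pool.Agent.Helper92_Sub.Compl

namespace Pool.Agent.Helper92_Sub

lemma relDepth_le_index {G : Type} [Group G] (H K : Subgroup G) [K.Normal] (g : G)
    (hK : K.index ≠ 0) (hg : g ∉ H ⊔ K) : relDepth H g ≤ (K.index : ℕ∞) := by
  have hK' : K.FiniteIndex := ⟨hK⟩
  have hfin : Finite (G ⧸ K) := inferInstance
  refine sInf_le ⟨G ⧸ K, inferInstance, hfin, QuotientGroup.mk' K, ?_, rfl⟩
  rintro ⟨h, hh, hhg⟩
  apply hg
  have h1 : h⁻¹ * g ∈ K := by
    rw [← QuotientGroup.eq]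
    exact hhg
  have h2 : g = h * (h⁻¹ * g) := by group
  rw [h2]
  exact Subgroup.mul_mem_sup hh h1

namespace HG

variable {m s : ℕ} {d : Fin m → ℕ}

/-- Central elements. -/
def zc (j : ℤ) : HG m s d := ⟨0, j⟩

@[simp] lemma zc_v (j : ℤ) : (zc j : HG m s d).v = 0 := rfl
@[simp] lemma zc_z (j : ℤ) : (zc j : HG m s d).z = j := rfl

lemma zc_mul (i j : ℤ) : (zc i : HG m s d) * zc j = zc (i + j) := by
  apply HG.ext <;> simp

lemma zc_inv (i : ℤ) : (zc i : HG m s d)⁻¹ = zc (-i) := by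
  apply HG.ext <;> simp

lemma zc_zero : (zc 0 : HG m s d) = 1 := rfl

lemma zc_pow (i : ℤ) (k : ℕ) : (zc i : HG m s d) ^ k = zc (k * i) := by
  induction k with
  | zero => simp [zc_zero]
  | succ k ih =>
    rw [pow_succ, ih, zc_mul]; congr 1; push_cast; ring

lemma zc_zpow (i k : ℤ) : (zc i : HG m s d) ^ k = zc (k * i) := by
  cases k with
  | ofNat k => simpa using zc_pow i k
  | negSucc k =>
    rw [zpow_negSucc, zc_pow, zc_inv]; congr 1; rw [Int.negSucc_eq]; push_cast; ring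

/-- The commutator form. -/
def B (d : Fin m → ℕ) (v w : Ix m s → ℤ) : ℤ := b d v w - b d w v

lemma conj_eq (g h : HG m s d) : g * h * g⁻¹ = ⟨h.v, h.z + B d g.v h.v⟩ := by
  apply HG.ext
  · simp
  · simp only [mul_z, inv_z, mul_v, inv_v, b_add_left, b_neg_right, B]; ring

lemma comm_eq (g h : HG m s d) : g * h * g⁻¹ * h⁻¹ = zc (B d g.v h.v) := by
  rw [conj_eq]
  apply HG.ext
  · simp
  · simp only [mul_z, inv_z, inv_v, b_neg_right, zc_z]; ring

lemma central_zc (j : ℤ) (g : HG m s d) : g * zc j = zc j * g := by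
  apply HG.ext <;> simp [add_comm]

/-- Scaling of the first `2 m` coordinates by `D`. -/
def sc (D : ℕ) : (Ix m s → ℤ) →+ (Ix m s → ℤ) where
  toFun v := fun i => match i with
    | Sum.inl i => (D : ℤ) * v (Sum.inl i)
    | Sum.inr (Sum.inl i) => (D : ℤ) * v (Sum.inr (Sum.inl i))
    | Sum.inr (Sum.inr i) => v (Sum.inr (Sum.inr i))
  map_zero' := by funext i; rcases i with i | i | i <;> simp
  map_add' v w := by funext i; rcases i with i | i | i <;> simp [mul_add]

/-- Left inverse of `sc`. -/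
def ds (D : ℕ) (v : Ix m s → ℤ) : Ix m s → ℤ := fun i => match i with
    | Sum.inl i => v (Sum.inl i) / (D : ℤ)
    | Sum.inr (Sum.inl i) => v (Sum.inr (Sum.inl i)) / (D : ℤ)
    | Sum.inr (Sum.inr i) => v (Sum.inr (Sum.inr i))

lemma ds_sc {D : ℕ} (hD : 0 < D) (v : Ix m s → ℤ) : ds D (sc D v) = v := by
  have : (D : ℤ) ≠ 0 := by exact_mod_cast hD.ne'
  funext i; rcases i with i | i | i
  · exact Int.mul_ediv_cancel_left _ this
  · exact Int.mul_ediv_cancel_left _ this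
  · rfl

lemma b_sc_left (D : ℕ) (v w : Ix m s → ℤ) : ∃ k : ℤ, b d (sc D v) w = D * k := by
  refine ⟨∑ i : Fin m, (d i : ℤ) * v (Sum.inl i) * w (Sum.inr (Sum.inl i)), ?_⟩
  rw [b, Finset.mul_sum]
  refine Finset.sum_congr rfl fun i _ => ?_
  change (d i : ℤ) * ((D : ℤ) * v (Sum.inl i)) * w (Sum.inr (Sum.inl i)) = _
  ring

lemma b_sc_right (D : ℕ) (v w : Ix m s → ℤ) : ∃ k : ℤ, b d v (sc D w) = D * k := by
  refine ⟨∑ i : Fin m, (d i : ℤ) * v (Sum.inl i) * w (Sum.inr (Sum.inl i)), ?_⟩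
  rw [b, Finset.mul_sum]
  refine Finset.sum_congr rfl fun i _ => ?_
  change (d i : ℤ) * v (Sum.inl i) * ((D : ℤ) * w (Sum.inr (Sum.inl i))) = _
  ring

lemma zmod_mul_z {D : ℕ} {g h : HG m s d} {v : Ix m s → ℤ} (hg : g.v = sc D v) :
    (((g * h).z : ℤ) : ZMod D) = (g.z : ZMod D) + (h.z : ZMod D) := by
  obtain ⟨k, hk⟩ := b_sc_left (d := d) D v h.v
  rw [mul_z, hg, hk]; push_cast; simp

lemma zmod_inv_z {D : ℕ} {g : HG m s d} {v : Ix m s → ℤ} (hg : g.v = sc D v) :
    (((g⁻¹).z : ℤ) : ZMod D) = -(g.z : ZMod D) := by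
  obtain ⟨k, hk⟩ := b_sc_left (d := d) D v g.v
  rw [inv_z]; nth_rewrite 1 [hg]; rw [hk]; push_cast; simp

/-- The image of `H` in the abelian quotient. -/
def img (H : Subgroup (HG m s d)) : AddSubgroup (Ix m s → ℤ) where
  carrier := {v | ∃ h ∈ H, h.v = v}
  zero_mem' := ⟨1, H.one_mem, rfl⟩
  add_mem' := by
    rintro _ _ ⟨g, hg, rfl⟩ ⟨h, hh, rfl⟩
    exact ⟨g * h, H.mul_mem hg hh, rfl⟩
  neg_mem' := by
    rintro _ ⟨g, hg, rfl⟩
    exact ⟨g⁻¹, H.inv_mem hg, rfl⟩

/-- The subgroup `P`. -/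
def PA (H : Subgroup (HG m s d)) (D : ℕ) : AddSubgroup ((Ix m s → ℤ) × ZMod D) where
  carrier := {a | ∃ h ∈ H, h.v = sc D a.1 ∧ (h.z : ZMod D) = a.2}
  zero_mem' := ⟨1, H.one_mem, by simp, by simp⟩
  add_mem' := by
    rintro a a' ⟨g, hg, hg1, hg2⟩ ⟨h, hh, hh1, hh2⟩
    refine ⟨g * h, H.mul_mem hg hh, ?_, ?_⟩
    · rw [mul_v, hg1, hh1, Prod.fst_add, map_add]
    · rw [zmod_mul_z hg1, hg2, hh2, Prod.snd_add]
  neg_mem' := by
    rintro a ⟨g, hg, hg1, hg2⟩
    refine ⟨g⁻¹, H.inv_mem hg, ?_, ?_⟩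
    · rw [inv_v, hg1, Prod.fst_neg, map_neg]
    · rw [zmod_inv_z hg1, hg2, Prod.snd_neg]

/-- The subgroup of `G` attached to `F`. -/
def KF (d : Fin m → ℕ) (D : ℕ) (F : AddSubgroup ((Ix m s → ℤ) × ZMod D)) :
    Subgroup (HG m s d) where
  carrier := {g | ∃ v, g.v = sc D v ∧ (v, (g.z : ZMod D)) ∈ F}
  one_mem' := ⟨0, by simp, by
    have h0 : ((0 : Ix m s → ℤ), (((1 : HG m s d).z : ℤ) : ZMod D)) = 0 := by
      refine Prod.ext ?_ ?_
      · rfl
      · simp
    rw [h0]; exact F.zero_mem⟩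
  mul_mem' := by
    rintro g h ⟨v, hv, hF⟩ ⟨w, hw, hF'⟩
    refine ⟨v + w, by rw [mul_v, hv, hw, map_add], ?_⟩
    rw [zmod_mul_z hv]
    exact F.add_mem hF hF'
  inv_mem' := by
    rintro g ⟨v, hv, hF⟩
    refine ⟨-v, by rw [inv_v, hv, map_neg], ?_⟩
    rw [zmod_inv_z hv]
    exact F.neg_mem hF

instance (D : ℕ) (F : AddSubgroup ((Ix m s → ℤ) × ZMod D)) : (KF d D F).Normal where
  conj_mem := by
    rintro g ⟨v, hv, hF⟩ x
    refine ⟨v, ?_, ?_⟩
    · rw [conj_eq]; exact hv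
    · rw [conj_eq]
      obtain ⟨k, hk⟩ := b_sc_left (d := d) D v x.v
      obtain ⟨l, hl⟩ := b_sc_right (d := d) D x.v v
      have h0 : ((g.z + B d x.v g.v : ℤ) : ZMod D) = (g.z : ZMod D) := by
        rw [B, hv, hk, hl]; push_cast; simp
      change (v, ((g.z + B d x.v g.v : ℤ) : ZMod D)) ∈ F
      rw [h0]; exact hF

/-- Reduction of the first `2 m` coordinates. -/
def red (d : Fin m → ℕ) (D : ℕ) : HG m s d →* Multiplicative ((Fin m ⊕ Fin m) → ZMod D) where
  toFun g := Multiplicative.ofAdd fun i => match i with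
    | Sum.inl i => (g.v (Sum.inl i) : ZMod D)
    | Sum.inr i => (g.v (Sum.inr (Sum.inl i)) : ZMod D)
  map_one' := by
    apply Multiplicative.toAdd.injective
    funext i; rcases i with i | i <;> simp
  map_mul' g h := by
    apply Multiplicative.toAdd.injective
    funext i; rcases i with i | i <;> simp

lemma mem_red_ker {D : ℕ} (hD : 0 < D) {g : HG m s d} :
    g ∈ (red d D).ker ↔ ∃ v, g.v = sc D v := by
  have hD0 : (D : ℤ) ≠ 0 := by exact_mod_cast hD.ne'
  rw [MonoidHom.mem_ker]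
  constructor
  · intro h
    have h1 : ∀ i : Fin m, (D : ℤ) ∣ g.v (Sum.inl i) := fun i => by
      have := congrFun (congrArg Multiplicative.toAdd h) (Sum.inl i)
      exact (ZMod.intCast_zmod_eq_zero_iff_dvd _ _).mp this
    have h2 : ∀ i : Fin m, (D : ℤ) ∣ g.v (Sum.inr (Sum.inl i)) := fun i => by
      have := congrFun (congrArg Multiplicative.toAdd h) (Sum.inr i)
      exact (ZMod.intCast_zmod_eq_zero_iff_dvd _ _).mp this
    refine ⟨ds D g.v, ?_⟩
    funext i; rcases i with i | i | i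
    · exact (Int.mul_ediv_cancel' (h1 i)).symm
    · exact (Int.mul_ediv_cancel' (h2 i)).symm
    · rfl
  · rintro ⟨v, hv⟩
    apply Multiplicative.toAdd.injective
    funext i; rcases i with i | i
    · change (g.v (Sum.inl i) : ZMod D) = 0
      rw [hv]
      change (((D : ℤ) * v (Sum.inl i) : ℤ) : ZMod D) = 0
      push_cast; simp
    · change (g.v (Sum.inr (Sum.inl i)) : ZMod D) = 0
      rw [hv]
      change (((D : ℤ) * v (Sum.inr (Sum.inl i)) : ℤ) : ZMod D) = 0
      push_cast; simp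

lemma red_index_le {D : ℕ} (hD : 0 < D) :
    (red (s := s) d D).ker.index ≠ 0 ∧ (red (s := s) d D).ker.index ≤ D ^ (2 * m) := by
  have : NeZero D := ⟨hD.ne'⟩
  have : Finite (Multiplicative ((Fin m ⊕ Fin m) → ZMod D)) :=
    inferInstanceAs (Finite ((Fin m ⊕ Fin m) → ZMod D))
  rw [Subgroup.index_ker]
  constructor
  · exact Nat.card_pos.ne'
  · refine (Subgroup.card_le_card_group _).trans ?_
    have : Nat.card (Multiplicative ((Fin m ⊕ Fin m) → ZMod D)) =
        Nat.card ((Fin m ⊕ Fin m) → ZMod D) := rfl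
    rw [this, Nat.card_fun]
    simp [two_mul]

/-- The isomorphism type of `R / ⟨z^D⟩`. -/
def th (d : Fin m → ℕ) {D : ℕ} (hD : 0 < D) :
    (red (s := s) d D).ker →* Multiplicative ((Ix m s → ℤ) × ZMod D) where
  toFun g := Multiplicative.ofAdd (ds D g.1.v, (g.1.z : ZMod D))
  map_one' := by
    have : ds D (0 : Ix m s → ℤ) = 0 := by
      have := ds_sc hD (0 : Ix m s → ℤ)
      rwa [map_zero] at this
    apply Multiplicative.toAdd.injective
    refine Prod.ext ?_ ?_
    · exact this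
    · simp
  map_mul' := by
    rintro ⟨g, hg⟩ ⟨h, hh⟩
    obtain ⟨v, hv⟩ := (mem_red_ker hD).mp hg
    obtain ⟨w, hw⟩ := (mem_red_ker hD).mp hh
    apply Multiplicative.toAdd.injective
    refine Prod.ext ?_ ?_
    · change ds D (g * h).v = ds D g.v + ds D h.v
      rw [mul_v, hv, hw, ← map_add, ds_sc hD, ds_sc hD, ds_sc hD]
    · change (((g * h).z : ℤ) : ZMod D) = (g.z : ZMod D) + (h.z : ZMod D)
      exact zmod_mul_z hv

lemma KF_index {D : ℕ} (hD : 0 < D) (F : AddSubgroup ((Ix m s → ℤ) × ZMod D))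
    (hF : F.index ≠ 0) :
    (KF d D F).index ≠ 0 ∧ (KF d D F).index ≤ D ^ (2 * m) * F.index := by
  have hle : KF d D F ≤ (red (s := s) d D).ker := by
    rintro g ⟨v, hv, _⟩
    exact (mem_red_ker hD).mpr ⟨v, hv⟩
  have h1 : (KF d D F).subgroupOf (red (s := s) d D).ker =
      (AddSubgroup.toSubgroup F).comap (th (s := s) d hD) := by
    ext ⟨g, hg⟩
    rw [Subgroup.mem_subgroupOf, Subgroup.mem_comap]
    constructor
    · rintro ⟨v, hv, hF⟩
      change (ds D g.v, (g.z : ZMod D)) ∈ F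
      change g.v = sc D v at hv
      rw [hv, ds_sc hD]; exact hF
    · intro h
      obtain ⟨v, hv⟩ := (mem_red_ker hD).mp hg
      refine ⟨v, hv, ?_⟩
      change (ds D g.v, (g.z : ZMod D)) ∈ F at h
      rwa [hv, ds_sc hD] at h
  have h2 : (KF d D F).relIndex (red (s := s) d D).ker ∣ F.index := by
    rw [Subgroup.relIndex, h1, Subgroup.index_comap]
    exact Subgroup.relIndex_dvd_index_of_normal _ _
  have h3 : (KF d D F).relIndex (red (s := s) d D).ker ≠ 0 := by
    intro h0; rw [h0] at h2; exact hF (Nat.eq_zero_of_zero_dvd h2)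
  obtain ⟨h4, h5⟩ := red_index_le (s := s) (d := d) hD
  rw [← Subgroup.relIndex_mul_index hle]
  refine ⟨Nat.mul_ne_zero h3 h4, ?_⟩
  rw [mul_comm (D ^ (2 * m))]
  exact Nat.mul_le_mul (Nat.le_of_dvd (Nat.pos_of_ne_zero hF) h2) h5

lemma PA_index (H : Subgroup (HG m s d)) {D : ℕ} (hD : 0 < D)
    (hτ : (img H).relIndex (sat (img H)) ≠ 0) :
    (PA H D).relIndex (sat (PA H D)) ≠ 0 ∧
      (PA H D).relIndex (sat (PA H D)) ≤ D * (img H).relIndex (sat (img H)) := by
  have : NeZero D := ⟨hD.ne'⟩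
  let f : ((Ix m s → ℤ) × ZMod D) →+ (Ix m s → ℤ) := (sc D).comp (AddMonoidHom.fst _ _)
  let Z' : AddSubgroup ((Ix m s → ℤ) × ZMod D) := (AddMonoidHom.fst (Ix m s → ℤ) (ZMod D)).ker
  have hE : PA H D ⊔ Z' = (img H).comap f := by
    apply le_antisymm
    · rw [sup_le_iff]
      constructor
      · rintro a ⟨h, hh, h1, _⟩
        exact ⟨h, hh, h1⟩
      · intro a ha
        have : a.1 = 0 := ha
        change sc D a.1 ∈ img H
        rw [this, map_zero]; exact (img H).zero_mem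
    · rintro a ⟨h, hh, h1⟩
      have : a = (a.1, (h.z : ZMod D)) + (0, a.2 - (h.z : ZMod D)) := by
        refine Prod.ext ?_ ?_ <;> simp
      rw [this]
      exact AddSubgroup.add_mem_sup ⟨h, hh, h1, rfl⟩ (rfl : (0 : Ix m s → ℤ) = 0)
  have hZcard : Nat.card Z' ∣ D := by
    have e : Z' ≃ ZMod D :=
      { toFun := fun a => a.1.2
        invFun := fun c => ⟨(0, c), rfl⟩
        left_inv := by
          rintro ⟨⟨a, c⟩, h⟩
          have : a = 0 := h
          subst this; rfl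
        right_inv := fun c => rfl }
    rw [Nat.card_congr e, Nat.card_zmod]
  have hfinZ : (PA H D).relIndex Z' ∣ D :=
    (AddSubgroup.index_dvd_card _).trans hZcard
  have h1 : (PA H D).relIndex ((img H).comap f) ∣ D := by
    rw [← hE, AddSubgroup.relIndex_sup_left]; exact hfinZ
  have hle1 : PA H D ≤ (img H).comap f := by rw [← hE]; exact le_sup_left
  have hle2 : (img H).comap f ≤ (sat (img H)).comap f :=
    AddSubgroup.comap_mono (le_sat _)
  have hmap : ((sat (img H)).comap f).map f ≤ sat (img H) := AddSubgroup.map_comap_le _ _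
  have h2 : ((img H).comap f).relIndex ((sat (img H)).comap f) ≠ 0 ∧
      ((img H).comap f).relIndex ((sat (img H)).comap f) ≤ (img H).relIndex (sat (img H)) := by
    rw [AddSubgroup.relIndex_comap]
    have h3 := AddSubgroup.relIndex_le_of_le_right hmap hτ
    refine ⟨?_, h3⟩
    intro h0
    exact hτ (AddSubgroup.relIndex_eq_zero_of_le_right hmap h0)
  have h3 : (PA H D).relIndex ((sat (img H)).comap f) ≠ 0 ∧
      (PA H D).relIndex ((sat (img H)).comap f) ≤ D * (img H).relIndex (sat (img H)) := by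
    rw [← AddSubgroup.relIndex_mul_relIndex _ _ _ hle1 hle2]
    constructor
    · refine Nat.mul_ne_zero ?_ h2.1
      intro h0; rw [h0] at h1; exact hD.ne' (Nat.eq_zero_of_zero_dvd h1)
    · exact Nat.mul_le_mul (Nat.le_of_dvd hD h1) h2.2
  have hsat : sat (PA H D) ≤ (sat (img H)).comap f := by
    rintro a ⟨k, hk, ha⟩
    refine ⟨k, hk, ?_⟩
    rw [← map_nsmul]
    exact hle1 ha
  constructor
  · intro h0
    exact h3.1 (AddSubgroup.relIndex_eq_zero_of_le_right hsat h0)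
  · exact (AddSubgroup.relIndex_le_of_le_right hsat h3.1).trans h3.2

/-- The main construction: a central element is separated from `H` in a quotient of order at most
`D ^ (2 m) * (D * τ)`. -/
theorem central_sep (H : Subgroup (HG m s d)) {D : ℕ} (hD : 0 < D)
    (hH : ∀ j : ℤ, zc j ∈ H ↔ (D : ℤ) ∣ j) (hτ : (img H).relIndex (sat (img H)) ≠ 0)
    {g h : HG m s d} (hh : h ∈ H) {j : ℤ} (hg : g = h * zc j) (hgH : g ∉ H) :
    relDepth H g ≤ ((D ^ (2 * m) * (D * (img H).relIndex (sat (img H))) : ℕ) : ℕ∞) := by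
  have : NeZero D := ⟨hD.ne'⟩
  obtain ⟨F, hPF, hFs, hFi⟩ := exists_compl (PA H D)
  obtain ⟨h1, h2⟩ := PA_index H hD hτ
  have hF0 : F.index ≠ 0 := by rw [hFi]; exact h1
  obtain ⟨h3, h4⟩ := KF_index (d := d) hD F hF0
  have hj : ¬ (D : ℤ) ∣ j := by
    intro hdj
    apply hgH
    rw [hg]
    exact H.mul_mem hh ((hH j).mpr hdj)
  refine (relDepth_le_index H (KF d D F) g h3 ?_).trans ?_
  · intro hgm
    have hz : zc j ∈ H ⊔ KF d D F := by
      have : zc j = h⁻¹ * g := by rw [hg]; group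
      rw [this]
      exact Subgroup.mul_mem _ (Subgroup.inv_mem _ (Subgroup.mem_sup_left hh)) hgm
    rw [← SetLike.mem_coe, Subgroup.mul_normal] at hz
    obtain ⟨x, hx, y, ⟨v, hv, hvF⟩, hxy⟩ := Set.mem_mul.mp hz
    have hxv : x.v = sc D (-v) := by
      have := congrArg HG.v hxy
      rw [mul_v, hv, zc_v] at this
      rw [map_neg]
      exact eq_neg_of_add_eq_zero_left this
    have hxF : ((-v : Ix m s → ℤ), (x.z : ZMod D)) ∈ F := hPF ⟨x, hx, hxv, rfl⟩
    have hsum : ((0 : Ix m s → ℤ), ((j : ℤ) : ZMod D)) ∈ F := by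
      have h5 := F.add_mem hxF hvF
      have h6 : (j : ZMod D) = (x.z : ZMod D) + (y.z : ZMod D) := by
        have := congrArg HG.z hxy
        rw [zc_z] at this
        rw [← this]
        exact zmod_mul_z hxv
      have h7 : ((-v : Ix m s → ℤ), (x.z : ZMod D)) + (v, (y.z : ZMod D)) =
          ((0 : Ix m s → ℤ), ((j : ℤ) : ZMod D)) := by
        refine Prod.ext ?_ ?_
        · simp
        · simp [h6]
      rw [h7] at h5; exact h5
    have hsat : ((0 : Ix m s → ℤ), ((j : ℤ) : ZMod D)) ∈ sat (PA H D) := by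
      refine ⟨D, hD, ?_⟩
      have : D • ((0 : Ix m s → ℤ), ((j : ℤ) : ZMod D)) = 0 := by
        refine Prod.ext ?_ ?_
        · simp
        · simp
      rw [this]; exact (PA H D).zero_mem
    obtain ⟨h', hh', hv', hz'⟩ := hFs ⟨hsum, hsat⟩
    have hv0 : h'.v = 0 := by rw [hv']; exact map_zero _
    have h8 : h' = zc h'.z := by apply HG.ext <;> simp [hv0]
    rw [h8] at hh'
    have h9 : (D : ℤ) ∣ h'.z := (hH _).mp hh'
    have h10 : (D : ℤ) ∣ h'.z - j := by
      rw [← ZMod.intCast_eq_intCast_iff_dvd_sub]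
      exact hz'.symm
    apply hj
    have : j = h'.z - (h'.z - j) := by ring
    rw [this]; exact dvd_sub h9 h10
  · have : (KF d D F).index ≤ D ^ (2 * m) * (D * (img H).relIndex (sat (img H))) := by
      refine h4.trans (Nat.mul_le_mul_left _ ?_)
      rw [hFi]; exact h2
    exact_mod_cast this

end HG

end Pool.Agent.Helper92_Sub
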